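import Pool.Agent.H25.CP.Tail
import Pool.Graph.R_seed8.Results.MP_572a82_pr.FragmentSize

/-!
# Bridge-addable classes: `P(frag ≥ k) = O(k^(-3/2))` and `E[frag] ≤ 1 + O(n^(-1/2))`
-/

open Filter

namespace Pool.Agent.Results.MP_572a82_pr.SquareRootRate

/-- The set `S` of graphs on the vertex set `Fin n` is bridge-addable: adding an edge between two vertices in
different components of a member never leaves `S`. -/
def BridgeAddableSet {n : ℕ} (S : Set (SimpleGraph (Fin n))) : Prop :=
  ∀ G ∈ S, ∀ u v : Fin n, G.connectedComponentMk u ≠ G.connectedComponentMk v →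
    G ⊔ SimpleGraph.edge u v ∈ S

/-- The fragment size: number of vertices minus the number of vertices of a largest component. -/
noncomputable def frag {n : ℕ} (G : SimpleGraph (Fin n)) : ℕ :=
  n - ⨆ c : G.ConnectedComponent, c.supp.ncard

/-- The expected fragment size of a uniformly random element of `S`. -/
noncomputable def meanFrag {n : ℕ} (S : Set (SimpleGraph (Fin n))) : ℝ :=
  (∑ᶠ G ∈ S, (frag G : ℝ)) / S.ncard

/-- The second moment of the fragment size of a uniformly random element of `S`. -/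
noncomputable def meanSqFrag {n : ℕ} (S : Set (SimpleGraph (Fin n))) : ℝ :=
  (∑ᶠ G ∈ S, (frag G : ℝ) ^ 2) / S.ncard

/-- The probability that a uniformly random element of `S` has fragment size at least `k`. -/
noncomputable def tailFrag {n : ℕ} (S : Set (SimpleGraph (Fin n))) (k : ℕ) : ℝ :=
  ({G ∈ S | k ≤ frag G}.ncard : ℝ) / S.ncard

/-- For every `n ≥ 1` and every nonempty bridge-addable set `S` of graphs on `n` vertices,
`E[frag(R)] ≤ 1 + 7250 n^(-1/2)`, `E[frag(R)^2] ≤ 7250 n^(1/2)` and `P(frag(R) ≥ k) ≤ 60000 k^(-3/2)` for a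
uniformly random element `R` of `S`. -/
theorem rate (n : ℕ) (hn : 1 ≤ n) (S : Set (SimpleGraph (Fin n))) (hne : S.Nonempty)
    (hS : BridgeAddableSet S) :
    meanFrag S ≤ 1 + 7250 / √n ∧ meanSqFrag S ≤ 7250 * √n ∧
      ∀ k : ℕ, 1 ≤ k → tailFrag S k ≤ 60000 / (k * √k) := by
  classical
  have hn1 : (1 : ℝ) ≤ n := by exact_mod_cast hn
  have hr1 : 1 ≤ √(n : ℝ) := Real.one_le_sqrt.2 hn1
  have hr2 : √(n : ℝ) ^ 2 = n := Real.sq_sqrt (by linarith)
  obtain ⟨A, rfl⟩ : ∃ A : Finset (SimpleGraph (Fin n)), (A : Set (SimpleGraph (Fin n))) = S :=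
    ⟨(Set.toFinite S).toFinset, Set.Finite.coe_toFinset _⟩
  have hA : Pool.Agent.Results.MP_572a82_pr.FragmentSize.BA A := by
    intro G hG u v huv
    have := hS G (by simpa using hG) u v (fun h => huv (SimpleGraph.ConnectedComponent.exact h))
    simpa using this
  have hAne : A.Nonempty := by simpa using hne
  have : Nonempty (Fin n) := ⟨⟨0, hn⟩⟩
  have hcard : √(n : ℝ) ^ 2 = (Fintype.card (Fin n) : ℝ) := by rw [hr2]; simp
  have h1 := Pool.Agent.H25.CP.mean2 hA hAne hr1 hcard
  have h2 := Pool.Agent.H25.CP.second2 hA hAne hr1 hcard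
  have ha : (0 : ℝ) < A.card := by exact_mod_cast Finset.card_pos.2 hAne
  have heq := Pool.Agent.Results.MP_572a82_pr.FragmentSize.meanFrag_eq A
  have heq2 : meanSqFrag (A : Set (SimpleGraph (Fin n))) =
      (∑ G ∈ A, (Pool.Agent.Results.MP_572a82_pr.FragmentSize.fr G : ℝ) ^ 2) / A.card := by
    unfold meanSqFrag
    rw [Set.ncard_coe_finset, finsum_mem_coe_finset]
    congr 1
    apply Finset.sum_congr rfl
    intro G _
    have : frag G = Pool.Agent.Results.MP_572a82_pr.FragmentSize.fr G :=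
      Pool.Agent.Results.MP_572a82_pr.FragmentSize.frag_eq G
    rw [this]
  refine ⟨?_, ?_, fun k hk => ?_⟩
  · calc meanFrag (A : Set (SimpleGraph (Fin n)))
        = Pool.Agent.Results.MP_572a82_pr.FragmentSize.meanFrag (A : Set (SimpleGraph (Fin n))) := rfl
      _ = _ := heq
      _ ≤ _ := h1
  · rw [heq2, div_le_iff₀ ha]
    exact h2
  · have h3 := Pool.Agent.H25.CP.tail_all hA hAne hr1 hcard hk
    have h4 : {G ∈ (A : Set (SimpleGraph (Fin n))) | k ≤ frag G} =
        ((A.filter fun G => k ≤ Pool.Agent.Results.MP_572a82_pr.FragmentSize.fr G :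
          Finset (SimpleGraph (Fin n))) : Set (SimpleGraph (Fin n))) := by
      ext G
      have : frag G = Pool.Agent.Results.MP_572a82_pr.FragmentSize.fr G :=
        Pool.Agent.Results.MP_572a82_pr.FragmentSize.frag_eq G
      simp [this]
    unfold tailFrag
    rw [h4, Set.ncard_coe_finset, Set.ncard_coe_finset]
    exact h3

/-- For every `n ≥ 1` and every nonempty bridge-addable set `S` of graphs on `n` vertices the expected fragment
size is at most `1 + 7250 / √n`, its second moment is at most `7250 √n` and the probability that it is at least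
`k ≥ 1` is at most `60000 k^(-3/2)`; in particular `limsup E[frag(R_n)] ≤ 1` for every bridge-addable class. -/
theorem result :
    (∀ n : ℕ, 1 ≤ n → ∀ S : Set (SimpleGraph (Fin n)), S.Nonempty → BridgeAddableSet S →
      meanFrag S ≤ 1 + 7250 / √n ∧ meanSqFrag S ≤ 7250 * √n ∧
        ∀ k : ℕ, 1 ≤ k → tailFrag S k ≤ 60000 / (k * √k)) ∧
    ∀ 𝒜 : (n : ℕ) → Set (SimpleGraph (Fin n)), (∀ n, 1 ≤ n → (𝒜 n).Nonempty) →
      (∀ n, BridgeAddableSet (𝒜 n)) →
      Filter.limsup (fun n => ((meanFrag (𝒜 n) : ℝ) : EReal)) Filter.atTop ≤ 1 :=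
  ⟨rate, fun 𝒜 hne hba => Pool.Agent.Results.MP_572a82_pr.FragmentSize.result 𝒜 hne hba⟩

end Pool.Agent.Results.MP_572a82_pr.SquareRootRate
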